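import Pool.Agent.N236.RT.Stm

/-!
# The norm of the value at the `p`-th powers is divisible by `p ^ (T N)` (S_EXT)
-/

set_option autoImplicit false

namespace Pool.Agent.N130.RT

open MvPolynomial Module Pool.Agent.N236.RT

/-- integral elements have norm at most `1` -/
theorem norm_le_one {p : ℕ} [Fact p.Prime] {w : PadicAlgCl p} (hw : IsIntegral ℤ w) : ‖w‖ ≤ 1 := by
  have h1 : IsIntegral ((PadicAlgCl.valued p).v.integer) w := hw.tower_top
  have h2 := (Valuation.integer.integers (PadicAlgCl.valued p).v).mem_of_integral h1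
  have h3 : (PadicAlgCl.valued p).v w ≤ 1 := h2
  have h4 := PadicAlgCl.valuation_coe p w
  rw [← h4]
  exact_mod_cast h3

theorem int_ev {K : Type} [Field K] {u v : K} (hu : IsIntegral ℤ u) (hv : IsIntegral ℤ v)
    (P : Pol ℤ) : IsIntegral ℤ (ev u v P) := by
  have h1 : ev u v P ∈ Algebra.adjoin ℤ (Set.range ![u, v]) := by
    rw [Algebra.adjoin_range_eq_range_aeval]
    exact ⟨P, rfl⟩
  have h2 : Algebra.adjoin ℤ (Set.range ![u, v]) ≤ integralClosure ℤ K := by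
    apply Algebra.adjoin_le
    rintro _ ⟨i, rfl⟩
    fin_cases i
    · exact hu
    · exact hv
  exact h2 h1

theorem map_ev {K L : Type*} [CommRing K] [CommRing L] [Algebra ℤ K] [Algebra ℤ L] (τ : K →+* L)
    (u v : K) (P : Pol ℤ) : τ (ev u v P) = ev (τ u) (τ v) P := by
  unfold ev
  rw [aeval_def, aeval_def, ← MvPolynomial.coe_eval₂Hom, ← MvPolynomial.coe_eval₂Hom]
  have h2 : (τ.comp (eval₂Hom (algebraMap ℤ K) ![u, v])) = eval₂Hom (algebraMap ℤ L) ![τ u, τ v] := by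
    apply MvPolynomial.ringHom_ext
    · intro r
      simp
    · intro i
      fin_cases i <;> simp
  exact congrArg (fun f => f P) h2

/-- the norm of the value at the `p`-th powers -/
theorem t_ext (hloc : S_LOC) : S_EXT := by
  intro K _ _ x y hx hy P T p hVO hp hne
  have : Fact p.Prime := ⟨hp⟩
  set z : K := ev (x ^ p) (y ^ p) P with hz
  have hzi : IsIntegral ℤ z := int_ev (hx.pow p) (hy.pow p) P
  obtain ⟨n, hn⟩ : ∃ n : ℤ, (n : ℚ) = Algebra.norm ℚ z :=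
    IsIntegrallyClosed.isIntegral_iff.1 (Algebra.isIntegral_norm ℚ hzi)
  have hn0 : n ≠ 0 := by
    rintro rfl
    rw [Int.cast_zero] at hn
    exact hne (Algebra.norm_eq_zero_iff.1 hn.symm)
  have h1 : ((|n| : ℤ) : ℝ) = ∏ σ : K →ₐ[ℚ] ℂ, ‖σ z‖ := by
    rw [← norm_prod, ← Algebra.norm_eq_prod_embeddings ℚ ℂ z, ← hn]
    simp
  have h2 : ‖(n : ℚ_[p])‖ ≤ (p : ℝ) ^ (-((T * finrank ℚ K : ℕ) : ℤ)) := by
    have e1 : ‖(n : ℚ_[p])‖ = ‖(n : PadicAlgCl p)‖ := by
      rw [← PadicAlgCl.norm_extends]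
      simp
    have e2 : (n : PadicAlgCl p) = ∏ τ : K →ₐ[ℚ] PadicAlgCl p, τ z := by
      rw [← Algebra.norm_eq_prod_embeddings ℚ (PadicAlgCl p) z, ← hn]
      simp
    have e3 : ∀ τ : K →ₐ[ℚ] PadicAlgCl p, ‖τ z‖ ≤ ((p : ℝ)⁻¹) ^ T := by
      intro τ
      have hux : ‖τ x‖ ≤ 1 := norm_le_one (map_isIntegral_int τ hx)
      have huy : ‖τ y‖ ≤ 1 := norm_le_one (map_isIntegral_int τ hy)
      have h4 : VO T (τ x) (τ y) P := by
        intro a b hab
        have h5 := map_ev (τ : K →+* PadicAlgCl p) x y (D a b P)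
        rw [hVO a b hab, map_zero] at h5
        exact h5.symm
      have h6 := hloc p T P (τ x) (τ y) hux huy h4
      have h7 := map_ev (τ : K →+* PadicAlgCl p) (x ^ p) (y ^ p) P
      have h8 : (τ : K →+* PadicAlgCl p) (x ^ p) = τ x ^ p := map_pow τ x p
      have h9 : (τ : K →+* PadicAlgCl p) (y ^ p) = τ y ^ p := map_pow τ y p
      rw [h8, h9] at h7
      have h10 : τ z = ev (τ x ^ p) (τ y ^ p) P := h7
      rw [h10]
      exact h6
    rw [e1, e2, norm_prod]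
    calc ∏ τ : K →ₐ[ℚ] PadicAlgCl p, ‖τ z‖
        ≤ ∏ _τ : K →ₐ[ℚ] PadicAlgCl p, ((p : ℝ)⁻¹) ^ T :=
          Finset.prod_le_prod (fun _ _ => norm_nonneg _) (fun τ _ => e3 τ)
      _ = (p : ℝ) ^ (-((T * finrank ℚ K : ℕ) : ℤ)) := by
          rw [Finset.prod_const, Finset.card_univ, AlgHom.card, ← pow_mul, zpow_neg, zpow_natCast,
            inv_pow]
  rw [Padic.norm_int_le_pow_iff_dvd] at h2
  have h3 : (p : ℤ) ^ (T * finrank ℚ K) ≤ |n| := Int.le_of_dvd (abs_pos.2 hn0) ((dvd_abs _ _).2 h2)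
  rw [← h1]
  exact_mod_cast h3

end Pool.Agent.N130.RT
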